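import Pool.Agent.H875.PL.RealMain

/-!
# Coverings of the plane branched along pseudolines on the Bogomolov-Miyaoka-Yau line

An arrangement of pseudolines in the real projective plane is the real part of an arrangement of symplectic lines in the
complex projective plane (Ruberman and Starkston). We consider the closed symplectic four-manifolds which are Galois
coverings of the complex projective plane, ramified of order `n ≥ 2` over each of the symplectic lines, and of
arbitrary orders `m P ≥ 2` over the exceptional curves of the blow-up of the points `P` of multiplicity at least
three; coverings which are ruled by the lines through a point are excluded. If the arrangement is not stretchable then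
there is no reason why the covering should be a complex surface.

The theorem: if the covering is on the Bogomolov-Miyaoka-Yau line, `3 σ = e`, then the combinatorics of the arrangement
is the one of an arrangement of lines with integral coefficients. (It is a triangle, the complete quadrilateral, or
the reflection arrangement `B_3`; that the last one is determined by its numbers of points is `nine`.)
-/

set_option autoImplicit false

namespace Pool.Agent.Results.MP_288651_gt.PseudolineCoverings

open Pool.Agent.H875.PL

/-- **The arrangements of pseudolines with coverings on the Bogomolov-Miyaoka-Yau line.** -/
theorem result {k : ℕ} {Φ : Type} [Fintype Φ] [DecidableEq Φ] (A : Arrangement k Φ) (hk : 3 ≤ k) {n : ℕ}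
    (hn : 2 ≤ n) {m : Finset Φ → ℕ} (hm : A.NotRuled n m) {e σ : ℤ} (h : A.OrbCovering n m e σ) (h0 : 3 * σ = e) :
    A.Realized :=
  A.realized_of_eq hk hn hm h h0

end Pool.Agent.Results.MP_288651_gt.PseudolineCoverings
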